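import Mathlib
import Pool.Agent.H30.QExt

namespace Pool.Agent.Results.MP_64d585_al.Spectrum

open Matrix MulOpposite Pool.Agent.H30

/-- Square quaternion matrices. -/
abbrev Mat (n : ℕ) := Matrix (Fin n) (Fin n) (Quaternion ℝ)

/-- Right quaternion subspaces of the column space. -/
abbrev Sub (n : ℕ) := Submodule (Quaternion ℝ)ᵐᵒᵖ (Fin n → Quaternion ℝ)

variable {n : ℕ}

/-- `M` is `A`-invariant. -/
def Invar (A : Mat n) (M : Sub n) : Prop := ∀ x ∈ M, A *ᵥ x ∈ M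

/-- `l` is an eigenvalue of the restriction of `A` to `M`: `A x = x l` with `0 ≠ x ∈ M`. -/
def Eig (A : Mat n) (M : Sub n) (l : Quaternion ℝ) : Prop :=
  ∃ x ∈ M, x ≠ 0 ∧ A *ᵥ x = fun i => x i * l

/-- c-sets of `A`. -/
def CSet (A : Mat n) (S : Set (Quaternion ℝ)) : Prop :=
  Maximal (fun T : Set (Quaternion ℝ) => (∀ l ∈ T, Eig A ⊤ l) ∧ (∀ l ∈ T, l.re ≠ 0) ∧
    (∀ l ∈ T, ∀ q : Quaternion ℝ, q ≠ 0 → q⁻¹ * l * q ∈ T) ∧ ∀ l ∈ T, -l ∉ T) S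

/-- Nonstandard involutions of the quaternions. -/
def IsNonstd (φ : Quaternion ℝ →ₗ[ℝ] Quaternion ℝ) : Prop :=
  (∀ x y, φ (x * y) = φ y * φ x) ∧ (∀ x, φ (φ x) = x) ∧ ∃ x, φ x ≠ star x

/-- `X_φ`: transpose with `φ` applied to every entry. -/
noncomputable def tr (φ : Quaternion ℝ →ₗ[ℝ] Quaternion ℝ) (X : Mat n) : Mat n := (X.map φ)ᵀ

/-- `y_φ G x`. -/
noncomputable def form (φ : Quaternion ℝ →ₗ[ℝ] Quaternion ℝ) (G : Mat n)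
    (y x : Fin n → Quaternion ℝ) : Quaternion ℝ := (fun i => φ (y i)) ⬝ᵥ G *ᵥ x

def Neutral (φ : Quaternion ℝ →ₗ[ℝ] Quaternion ℝ) (G : Mat n) (M : Sub n) : Prop :=
  ∀ x ∈ M, ∀ y ∈ M, form φ G y x = 0

/-- `β⁻¹ x_φ G x ≥ 0` on `M` (this number is real for `φ`-skewhermitian `G`). -/
def Nonneg (φ : Quaternion ℝ →ₗ[ℝ] Quaternion ℝ) (β : Quaternion ℝ) (G : Mat n) (M : Sub n) : Prop :=
  ∀ x ∈ M, 0 ≤ (β⁻¹ * form φ G x x).re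

/-- `β⁻¹ x_φ G x ≤ 0` on `M`. -/
def Nonpos (φ : Quaternion ℝ →ₗ[ℝ] Quaternion ℝ) (β : Quaternion ℝ) (G : Mat n) (M : Sub n) : Prop :=
  ∀ x ∈ M, (β⁻¹ * form φ G x x).re ≤ 0

lemma red {φ : Quaternion ℝ →ₗ[ℝ] Quaternion ℝ} (hφ : IsNonstd φ) {β : Quaternion ℝ}
    (hβ : φ β = -β) (hn : ‖β‖ = 1) {H A : Mat n} (hu : IsUnit H) (hH : tr φ H = H)
    (hA : H * A = -(tr φ A * H)) : ∃ K : Mat n, IsUnit K ∧ Kᴴ = -K ∧ K * A = -(Aᴴ * K) ∧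
      ∀ x y, β⁻¹ * form φ (H * A) x y = star x ⬝ᵥ (K * A) *ᵥ y := by
  obtain ⟨bb, bs, hf⟩ := QExt.inv_formula φ hφ.1 hφ.2.1 hφ.2.2 β hβ hn
  have bi : β⁻¹ = -β := inv_eq_of_mul_eq_one_right (by rw [mul_neg, bb, neg_neg])
  have b0 : β ≠ 0 := by rintro rfl; simp at hn
  refine ⟨(-β) • H, ?_, ?_, ?_, fun x y => ?_⟩
  · have : (-β) • H = (diagonal fun _ => -β) * H := by ext1 i j; simp
    rw [this]
    refine IsUnit.mul ?_ hu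
    refine ⟨⟨diagonal fun _ => -β, diagonal fun _ => β, ?_, ?_⟩, rfl⟩ <;>
      simp [diagonal_mul_diagonal, bb]
  · ext1 i j
    have : φ (H j i) = H i j := congrFun (congrFun hH i) j
    simp [bs, ← hf, this]
  · rw [Matrix.smul_mul, hA]
    ext1 i j
    simp [tr, mul_apply, Finset.mul_sum, ← mul_assoc, hf]
  · rw [Matrix.smul_mul, smul_mulVec, bi]
    simp [form, dotProduct, Finset.mul_sum, ← mul_assoc, hf]

lemma cs {A : Mat n} {S : Set (Quaternion ℝ)} (h : CSet A S) :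
    Maximal (fun T : Set QExt.Q => (∀ l ∈ T, ∃ x, x ≠ 0 ∧ QExt.la A x = op l • x) ∧
      (∀ l ∈ T, l.re ≠ 0) ∧ (∀ l ∈ T, ∀ q : QExt.Q, q ≠ 0 → q⁻¹ * l * q ∈ T) ∧
      ∀ l ∈ T, -l ∉ T) S := by
  simp only [CSet, Eig, Submodule.mem_top, true_and] at h
  exact h

/-- Q2 for a nonstandard involution. -/
theorem result (φ : Quaternion ℝ →ₗ[ℝ] Quaternion ℝ) (hφ : IsNonstd φ) (β : Quaternion ℝ)
    (hβ : φ β = -β) (hn : ‖β‖ = 1) (n : ℕ) (H A : Mat n) (hu : IsUnit H) (hH : tr φ H = H)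
    (hA : H * A = -(tr φ A * H)) (N : Sub n) (hN : Invar A N) (h0 : Neutral φ (H * A) N)
    (S : Set (Quaternion ℝ)) (hS : CSet A S) (hNS : ∀ l, l.re ≠ 0 → Eig A N l → l ∈ S) :
    (∃ L : Sub n, N ≤ L ∧ Invar A L ∧ Maximal (Nonneg φ β (H * A)) L ∧
      S = {l | l.re ≠ 0 ∧ Eig A L l}) ∧
    ∃ L : Sub n, N ≤ L ∧ Invar A L ∧ Maximal (Nonpos φ β (H * A)) L ∧
      S = {l | l.re ≠ 0 ∧ Eig A L l} := by
  obtain ⟨K, hKu, hK, hKA, hf⟩ := red hφ hβ hn hu hH hA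
  have g := QExt.good hK hKA
  have z : ∀ x ∈ N, ∀ y ∈ N, QExt.bf (K * A) x y = 0 := fun x hx y hy => by
    rw [QExt.bf_apply, ← hf, h0 y hy x hx, mul_zero]; rfl
  have r := QExt.rad hKu hK hKA
  have e : ∀ x ∈ N, x ≠ 0 → ∀ l : QExt.Q, QExt.la A x = op l • x → l.re ≠ 0 → l ∈ S :=
    fun x hx h l hl hr => hNS l hr ⟨x, hx, h, hl⟩
  obtain ⟨L, a1, a2, a3, a4⟩ := QExt.thmB g r S (cs hS) N hN z e
  obtain ⟨L', b1, b2, b3, b4⟩ := QExt.thmB g.neg (fun x h => r x fun y => by simpa using h y) S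
    (cs hS) N hN (fun x hx y hy => by simp [z x hx y hy]) e
  simp only [LinearMap.neg_apply, Left.nonneg_neg_iff] at b3
  unfold Nonneg Nonpos
  simp only [hf]
  exact ⟨⟨L, a1, a2, a3, Set.ext a4⟩, L', b1, b2, b3, Set.ext b4⟩

end Pool.Agent.Results.MP_64d585_al.Spectrum
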